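import Pool.Agent.Results.MP_d4663a_an.NonCnedCantorSubset
import Pool.Agent.H196.Conf

/-!
# Compact sets all of whose Cantor subsets are CNED are (locally) conformally removable

In particular, if all Cantor sets in the boundary of a circle domain are CNED (equivalently,
removable for continuous `W^{1,2}` functions), the boundary is conformally removable.
-/

set_option autoImplicit false

open MeasureTheory Set Filter Topology Metric
open scoped ENNReal

namespace Pool.Agent.Results.MP_42f34a_an.CnedCantorSubsets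

/-- Euclidean `n`-space. -/
abbrev Eucl (n : ℕ) := EuclideanSpace ℝ (Fin n)

/-- The path `γ : [0, 1] → ℝⁿ` is rectifiable: it has finite length. -/
def IsRectifiable {n : ℕ} (γ : ℝ → Eucl n) : Prop := eVariationOn γ (Icc 0 1) ≠ ⊤

/-- The line integral `∫_γ ρ ds` over a rectifiable path `γ : [0, 1] → ℝⁿ`: the integral of
`ρ ∘ γ_s` over `[0, length of γ]`, where `γ_s` is the parametrization of `γ` by arc length. -/
noncomputable def lineIntegral {n : ℕ} (ρ : Eucl n → ℝ≥0∞) (γ : ℝ → Eucl n) : ℝ≥0∞ :=
  ∫⁻ s in Icc 0 (eVariationOn γ (Icc 0 1)).toReal, ρ (naturalParameterization γ (Icc 0 1) 0 s)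

/-- The conformal `n`-modulus of a family `Γ` of paths `[0, 1] → ℝⁿ`: the infimum of `∫ ρⁿ` over
the Borel functions `ρ : ℝⁿ → [0, ∞]` with `∫_γ ρ ds ≥ 1` for all rectifiable `γ` in `Γ`. -/
noncomputable def modulus {n : ℕ} (Γ : Set (ℝ → Eucl n)) : ℝ≥0∞ :=
  ⨅ (ρ : Eucl n → ℝ≥0∞) (_ : Measurable ρ)
    (_ : ∀ γ ∈ Γ, IsRectifiable γ → 1 ≤ lineIntegral ρ γ), ∫⁻ x, ρ x ^ n

/-- The family of the paths (functions continuous on `[0, 1]`) from `F₁` to `F₂`. -/
def joining {n : ℕ} (F₁ F₂ : Set (Eucl n)) : Set (ℝ → Eucl n) :=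
  {γ | ContinuousOn γ (Icc 0 1) ∧ γ 0 ∈ F₁ ∧ γ 1 ∈ F₂}

/-- The family of the paths whose trace meets `E` in at most countably many points. -/
def curvesSigma {n : ℕ} (E : Set (Eucl n)) : Set (ℝ → Eucl n) :=
  {γ | (γ '' Icc 0 1 ∩ E).Countable}

/-- `E` is CNED (countably negligible for extremal distances): for any two disjoint continua
(nonempty compact connected sets) `F₁`, `F₂` the modulus of the family of all paths from `F₁` to
`F₂` equals the modulus of the family of those which meet `E` in a countable set. -/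
def IsCNED {n : ℕ} (E : Set (Eucl n)) : Prop :=
  ∀ F₁ F₂ : Set (Eucl n), IsCompact F₁ → IsConnected F₁ → IsCompact F₂ → IsConnected F₂ →
    Disjoint F₁ F₂ → modulus (joining F₁ F₂) = modulus (joining F₁ F₂ ∩ curvesSigma E)

/-- The identification of `ℂ` with `ℝ²`. -/
noncomputable def toPlane (z : ℂ) : Eucl 2 := !₂[z.re, z.im]

/-- `E ⊆ ℂ` is locally conformally removable: for every open `U ⊆ ℂ`, every injective continuous
map `f : U → ℂ` which is holomorphic on `U \ E` is holomorphic on `U`. -/
def IsLocallyConformallyRemovable (E : Set ℂ) : Prop :=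
  ∀ U : Set ℂ, IsOpen U → ∀ f : ℂ → ℂ, ContinuousOn f U → InjOn f U →
    DifferentiableOn ℂ f (U \ E) → DifferentiableOn ℂ f U

/-- `E ⊆ ℂ` is conformally removable: every homeomorphism of `ℂ` holomorphic off `E` is
holomorphic on `ℂ`. -/
def IsConformallyRemovable (E : Set ℂ) : Prop :=
  ∀ f : ℂ ≃ₜ ℂ, DifferentiableOn ℂ f Eᶜ → Differentiable ℂ f

lemma toPlane_eq (z : ℂ) : toPlane z = Pool.Agent.H196.TT z := by
  ext i
  fin_cases i <;> simp [toPlane, Pool.Agent.H196.TT]

/-- **Cantor subsets decide, with CNED in place of conformal removability.** Let `E ⊆ ℂ` be a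
closed set such that every Cantor set (nonempty, compact, perfect, totally disconnected)
`K ⊆ E` is CNED. Then `E` is conformally removable, and even locally so. This applies to the
boundary of every circle domain, and to every Jordan curve. -/
theorem result : ∀ E : Set ℂ, IsClosed E →
    (∀ K ⊆ E, K.Nonempty → IsCompact K → Perfect K → IsTotallyDisconnected K →
      IsCNED (toPlane '' K)) →
    IsConformallyRemovable E ∧ IsLocallyConformallyRemovable E := by
  intro E hE hK
  have hpl : toPlane = Pool.Agent.H196.TT := funext toPlane_eq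
  have hEc : IsClosed (toPlane '' E) := by
    rw [hpl]
    exact (Pool.Agent.H196.TT.toHomeomorph.isClosedMap) E hE
  have hpre : Pool.Agent.H196.TT ⁻¹' (toPlane '' E) = E := by
    rw [hpl]
    exact preimage_image_eq _ Pool.Agent.H196.TT.injective
  have hcned : IsCNED (toPlane '' E) := by
    by_contra hnc
    obtain ⟨L, hLE, h1, h2, h3, h4, h5⟩ :=
      Pool.Agent.Results.MP_d4663a_an.NonCnedCantorSubset.result 2 le_rfl _ hEc hnc
    set h := Pool.Agent.H196.TT.toHomeomorph with hh
    have hL : toPlane '' (h ⁻¹' L) = L := by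
      rw [hpl]
      exact h.image_preimage L
    refine h5 ?_
    rw [← hL]
    refine hK (h ⁻¹' L) ?_ ?_ ?_ ?_ ?_
    · intro z hz
      have : h z ∈ toPlane '' E := hLE hz
      rw [← hpre]
      exact this
    · obtain ⟨x, hx⟩ := h1
      exact ⟨h.symm x, by simpa using hx⟩
    · exact h.isCompact_preimage.2 h2
    · refine ⟨h3.closed.preimage h.continuous, preperfect_iff_nhds.2 fun x hx U hU => ?_⟩
      obtain ⟨y, ⟨hyU, hyL⟩, hne⟩ := preperfect_iff_nhds.1 h3.acc (h x) hx (h '' U)
        (h.isOpenMap.image_mem_nhds hU)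
      obtain ⟨z, hzU, rfl⟩ := hyU
      exact ⟨z, ⟨hzU, hyL⟩, fun h0 => hne (by rw [h0])⟩
    · rw [← h.isEmbedding.isTotallyDisconnected_image, h.image_preimage]
      exact h4
  have hloc : IsLocallyConformallyRemovable E := by
    intro U hU f hf hinj hhol
    have hrem := Pool.Agent.Results.MP_d4663a_an.NonCnedCantorSubset.removable_of_cned le_rfl hEc
      hcned
    exact Pool.Agent.H196.local_removable hEc hrem hU hf hinj (by rw [hpre]; exact hhol)
  refine ⟨fun f hf => ?_, hloc⟩
  rw [← differentiableOn_univ]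
  exact hloc univ isOpen_univ f f.continuous.continuousOn f.injective.injOn
    (by rwa [← compl_eq_univ_sdiff])

end Pool.Agent.Results.MP_42f34a_an.CnedCantorSubsets
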